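import Pool.Agent.K9h16.TG.Imp

/-!
The exponents of sums with a p-adic bound, with integer multiplicities.
-/

set_option autoImplicit false

namespace Pool.Agent.K9h16.VT

open Finset Polynomial Filter Pool.Agent.W528.HA Pool.Agent.W528.HB Pool.Agent.W528.HD

/-- bounded exponential sums have bounded exponents -/
theorem bdZ (C : Type) [NormedField C] [CharZero C] (S : Finset C) (m : C → ℤ) (ρ : ℝ) (hρ : 0 ≤ ρ)
    (hS : ∀ a ∈ S, a ≠ 0 ∧ m a ≠ 0) (hsum : ∀ n, 1 ≤ n → ‖∑ a ∈ S, (m a : C) * a ^ n‖ ≤ ρ ^ n)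
    (a0 : C) (ha0 : a0 ∈ S) : ‖a0‖ ≤ ρ := by
  classical
  by_contra hlt
  push Not at hlt
  obtain ⟨P, hP⟩ : ∃ P : C[X], P = ∏ b ∈ S.erase a0, (X - Polynomial.C b) := ⟨_, rfl⟩
  have hPz : ∀ a ∈ S, a ≠ a0 → P.eval a = 0 := by
    intro a ha hne
    rw [hP, eval_prod]
    apply Finset.prod_eq_zero (Finset.mem_erase.2 ⟨hne, ha⟩)
    simp
  have hP0 : P.eval a0 ≠ 0 := by
    rw [hP, eval_prod, Finset.prod_ne_zero_iff]
    intro b hb
    rw [Finset.mem_erase] at hb
    simp only [eval_sub, eval_X, eval_C]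
    exact sub_ne_zero.2 (Ne.symm hb.1)
  have hid : ∀ n : ℕ, ∑ j ∈ range (P.natDegree + 1), P.coeff j * (∑ a ∈ S, (m a : C) * a ^ (n + j)) =
      (m a0 : C) * P.eval a0 * a0 ^ n := by
    intro n
    have h1 : ∑ j ∈ range (P.natDegree + 1), P.coeff j * (∑ a ∈ S, (m a : C) * a ^ (n + j)) =
        ∑ a ∈ S, (m a : C) * a ^ n * P.eval a := by
      simp_rw [Finset.mul_sum]
      rw [Finset.sum_comm]
      apply Finset.sum_congr rfl
      intro a _
      rw [eval_eq_sum_range, Finset.mul_sum]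
      apply Finset.sum_congr rfl
      intro j _
      ring
    rw [h1, Finset.sum_eq_single_of_mem a0 ha0]
    · ring
    · intro b hb hne
      rw [hPz b hb hne, mul_zero]
  obtain ⟨K, hK⟩ : ∃ K : ℝ, K = ∑ j ∈ range (P.natDegree + 1), ‖P.coeff j‖ * ρ ^ j := ⟨_, rfl⟩
  have hbound : ∀ n : ℕ, 1 ≤ n → ‖(m a0 : C) * P.eval a0‖ * ‖a0‖ ^ n ≤ K * ρ ^ n := by
    intro n hn
    rw [← norm_pow, ← norm_mul, ← hid n, hK, Finset.sum_mul]
    refine (norm_sum_le _ _).trans ?_
    apply Finset.sum_le_sum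
    intro j _
    rw [norm_mul]
    calc ‖P.coeff j‖ * ‖∑ a ∈ S, (m a : C) * a ^ (n + j)‖ ≤ ‖P.coeff j‖ * ρ ^ (n + j) :=
          mul_le_mul_of_nonneg_left (hsum (n + j) (by omega)) (norm_nonneg _)
      _ = ‖P.coeff j‖ * ρ ^ j * ρ ^ n := by ring
  have hc : 0 < ‖(m a0 : C) * P.eval a0‖ := by
    rw [norm_pos_iff]
    exact mul_ne_zero (by exact_mod_cast (hS a0 ha0).2) hP0
  have ha0n : 0 < ‖a0‖ := norm_pos_iff.2 (hS a0 ha0).1
  rcases hρ.eq_or_lt with h0 | h0
  · have h1 := hbound 1 le_rfl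
    rw [← h0] at h1
    have h2 : 0 < ‖(m a0 : C) * P.eval a0‖ * ‖a0‖ ^ 1 := by positivity
    simp only [pow_one, mul_zero] at h1 h2
    linarith
  · have hr : 1 < ‖a0‖ / ρ := by rw [lt_div_iff₀ h0]; linarith
    have ht := tendsto_pow_atTop_atTop_of_one_lt hr
    obtain ⟨n, hn1, hn2⟩ := ((ht.eventually_gt_atTop (K / ‖(m a0 : C) * P.eval a0‖)).and
      (eventually_ge_atTop 1)).exists
    have h1 := hbound n hn2
    rw [div_lt_iff₀ hc, div_pow, div_mul_eq_mul_div, lt_div_iff₀ (by positivity)] at hn1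
    linarith


/-- exponential sums with values in a simple algebraic extension of the rationals have algebraic
exponents -/
theorem alZ (E : Type) [Field E] [CharZero E] (μ : E) (hμ : IsAlgebraic ℚ μ) (S : Finset E)
    (m : E → ℤ) (hS : ∀ a ∈ S, a ≠ 0 ∧ m a ≠ 0)
    (hg : ∀ n, 1 ≤ n → ∃ g : ℚ[X], aeval μ g = ∑ a ∈ S, (m a : E) * a ^ n)
    (a0 : E) (ha0 : a0 ∈ S) : IsAlgebraic ℚ a0 := by
  classical
  obtain ⟨F, hF⟩ : ∃ F : IntermediateField ℚ E, F = IntermediateField.adjoin ℚ {μ} := ⟨_, rfl⟩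
  have halg : Algebra.IsAlgebraic ℚ F := by
    rw [hF]
    exact IntermediateField.isAlgebraic_adjoin_simple hμ.isIntegral
  obtain ⟨π, hπ⟩ := LinearMap.exists_leftInverse_of_injective (Algebra.linearMap F E)
    (LinearMap.ker_eq_bot.2 (algebraMap F E).injective)
  have hπ1 : ∀ c : F, π (algebraMap F E c) = c := fun c => LinearMap.congr_fun hπ c
  have hp : ∀ n, 1 ≤ n → ∃ c : F, algebraMap F E c = ∑ a ∈ S, (m a : E) * a ^ n := by
    intro n hn
    obtain ⟨g, hg'⟩ := hg n hn
    refine ⟨⟨aeval μ g, ?_⟩, hg'⟩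
    rw [hF]
    exact IntermediateField.algebra_adjoin_le_adjoin ℚ {μ} (aeval_mem_adjoin_singleton ℚ μ)
  choose! pF hpF using hp
  set Q : E[X] := ∏ a ∈ S, (X - C a) with hQ
  have hQm : Q.Monic := monic_prod_of_monic _ _ fun a _ => monic_X_sub_C a
  have hQ0 : ∀ a ∈ S, Q.eval a = 0 := by
    intro a ha
    rw [hQ, eval_prod]
    exact Finset.prod_eq_zero ha (by simp)
  set Q' : F[X] := ∑ k ∈ range (Q.natDegree + 1), monomial k (π (Q.coeff k)) with hQ'
  have hQ'c : Q'.coeff Q.natDegree = 1 := by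
    rw [hQ', finsetSum_coeff]
    simp only [coeff_monomial]
    rw [Finset.sum_ite_eq', if_pos (by simp)]
    have h := hQm.coeff_natDegree
    rw [h, ← map_one (algebraMap F E), hπ1]
  have h1 : ∀ n, 1 ≤ n → ∑ a ∈ S, (m a : E) * aeval a Q' * a ^ n = 0 := by
    intro n hn
    have e1 : ∑ k ∈ range (Q.natDegree + 1), Q.coeff k * ∑ a ∈ S, (m a : E) * a ^ (n + k) = 0 := by
      have : ∑ k ∈ range (Q.natDegree + 1), Q.coeff k * ∑ a ∈ S, (m a : E) * a ^ (n + k) =
          ∑ a ∈ S, (m a : E) * a ^ n * Q.eval a := by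
        simp only [Finset.mul_sum, eval_eq_sum_range]
        rw [Finset.sum_comm]
        refine Finset.sum_congr rfl fun a _ => Finset.sum_congr rfl fun k _ => ?_
        rw [pow_add]; ring
      rw [this]
      exact Finset.sum_eq_zero fun a ha => by rw [hQ0 a ha, mul_zero]
    have e2 : ∑ k ∈ range (Q.natDegree + 1), π (Q.coeff k) * pF (n + k) = 0 := by
      have := congrArg π e1
      rw [map_sum, map_zero] at this
      rw [← this]
      refine Finset.sum_congr rfl fun k _ => ?_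
      rw [← hpF (n + k) (by omega), mul_comm (Q.coeff k), ← Algebra.smul_def, map_smul,
        smul_eq_mul, mul_comm]
    have e3 : ∑ k ∈ range (Q.natDegree + 1),
        algebraMap F E (π (Q.coeff k)) * ∑ a ∈ S, (m a : E) * a ^ (n + k) = 0 := by
      have := congrArg (algebraMap F E) e2
      rw [map_sum, map_zero] at this
      rw [← this]
      refine Finset.sum_congr rfl fun k _ => ?_
      rw [map_mul, hpF (n + k) (by omega)]
    rw [← e3]
    simp only [Finset.mul_sum]
    rw [Finset.sum_comm]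
    refine Finset.sum_congr rfl fun a _ => ?_
    rw [hQ', map_sum, Finset.mul_sum, Finset.sum_mul]
    refine Finset.sum_congr rfl fun k _ => ?_
    rw [aeval_monomial, pow_add]; ring
  set P : E[X] := ∏ b ∈ S.erase a0, (X - C b) with hP
  have h2 : ∑ a ∈ S, (m a : E) * aeval a Q' * (a * P.eval a) = 0 := by
    have : ∀ a, a * P.eval a = ∑ j ∈ range (P.natDegree + 1), P.coeff j * a ^ (j + 1) := by
      intro a
      rw [eval_eq_sum_range, Finset.mul_sum]
      exact Finset.sum_congr rfl fun j _ => by ring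
    simp only [this, Finset.mul_sum]
    rw [Finset.sum_comm]
    refine Finset.sum_eq_zero fun j _ => ?_
    have e : ∑ a ∈ S, (m a : E) * aeval a Q' * (P.coeff j * a ^ (j + 1)) =
        P.coeff j * ∑ a ∈ S, (m a : E) * aeval a Q' * a ^ (j + 1) := by
      rw [Finset.mul_sum]; exact Finset.sum_congr rfl fun a _ => by ring
    rw [e, h1 (j + 1) (by omega), mul_zero]
  rw [Finset.sum_eq_single a0] at h2
  · have hm : (m a0 : E) ≠ 0 := by
      exact_mod_cast (hS a0 ha0).2
    have hP0 : P.eval a0 ≠ 0 := by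
      rw [hP, eval_prod, Finset.prod_ne_zero_iff]
      intro b hb
      rw [eval_sub, eval_X, eval_C, sub_ne_zero]
      exact (Finset.ne_of_mem_erase hb).symm
    have hz : aeval a0 Q' = 0 := by
      rcases mul_eq_zero.1 h2 with h | h
      · rcases mul_eq_zero.1 h with h | h
        · exact absurd h hm
        · exact h
      · exact absurd h (mul_ne_zero (hS a0 ha0).1 hP0)
    have hF0 : IsAlgebraic F a0 := ⟨Q', fun h => by rw [h] at hQ'c; simp at hQ'c, hz⟩
    exact hF0.restrictScalars ℚ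
  · intro b hb hne
    have : P.eval b = 0 := by
      rw [hP, eval_prod]
      exact Finset.prod_eq_zero (Finset.mem_erase.2 ⟨hne, hb⟩) (by simp)
    rw [this, mul_zero, mul_zero]
  · intro h
    exact absurd ha0 h


/-- the exponents of sums with a p-adic bound -/
theorem coreZ {c : ℕ} [Fact c.Prime] {N : ℕ} (hN : 2 ≤ N)
    (κ : Type) [Field κ] [Fintype κ] [CharP κ c] {f : ℕ} (hf : Fintype.card κ = c ^ f)
    (d K : ℕ) (hK : 0 < K) {j : ℕ} (hj : j.Coprime N)
    {z : κ} (hz : IsPrimitiveRoot z N) {E : Type} [Field E] [CharZero E] [IsAlgClosed E]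
    {μ : E} (hμ : IsPrimitiveRoot μ N)
    (Sm : ∀ (L : Type) [Field L] [Fintype L] [Algebra κ L] (R : Type) [CommRing R], R → R)
    (hSm : ∀ (L : Type) [Field L] [Fintype L] [Algebra κ L] (R R' : Type) [CommRing R]
      [CommRing R'] (g : R →+* R') (x : R), g (Sm L R x) = Sm L R' (g x))
    (hest : ∀ (k : Type) [Field k] [CharP k c] (R : Subring (PadicAlgCl c)) (res : R →+* k),
      IsRes c R res → ∀ (n : ℕ), 0 < n → ∀ (L : Type) [Field L] [Fintype L] [Algebra κ L]
      [CharP L c], Fintype.card L = c ^ (f * n) → ∀ (e : L →+* k) (Ω : PadicAlgCl c),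
      IsPrimitiveRoot Ω N → (∃ h : Ω ∈ R, res ⟨Ω, h⟩ = e (algebraMap κ L z)) →
      ‖Sm L (PadicAlgCl c) (Ω ^ j)‖ ^ K
        ≤ ‖((Fintype.card L : ℕ) : PadicAlgCl c)‖ ^ (d * K) * ‖((c : ℕ) : PadicAlgCl c)‖ ^ n)
    (S : Finset E) (mult : E → ℤ) (hS : ∀ a ∈ S, a ≠ 0 ∧ mult a ≠ 0)
    (hA : ∀ (L : Type) [Field L] [Fintype L] [Algebra κ L],
      ∑ a ∈ S, (mult a : E) * a ^ Module.finrank κ L = Sm L E μ)
    (e : E) (heS : e ∈ S) (m : ℕ) (hm : 0 < m)
    (hem : e ^ m = ((Fintype.card κ : E) ^ d) ^ m) : False := by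
  classical
  have hTP : TP := Pool.Agent.W999.HB.TP.main
  have hEM : EM := Pool.Agent.W346.HA.EM.main
  have hc2 : 2 ≤ c := (Fact.out : c.Prime).two_le
  have hf0 : 0 < f := by
    rcases Nat.eq_zero_or_pos f with h | h
    · rw [h, pow_zero] at hf
      have := Fintype.one_lt_card (α := κ)
      omega
    · exact h
  have hNf : N ∣ c ^ f - 1 := by
    rw [← hf]
    exact dvd_card_of_root hz (by omega)
  -- the field of values
  have hμalg : IsAlgebraic ℚ μ := by
    have h1 : IsIntegral ℤ μ := hμ.isIntegral (by omega)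
    exact (h1.tower_top (A := ℚ)).isAlgebraic
  have hext : ∀ n, 1 ≤ n → ∃ (L : Type) (_ : Field L) (_ : Fintype L) (_ : Algebra κ L),
      Module.finrank κ L = n := by
    intro n hn
    have : NeZero n := ⟨by omega⟩
    let _ : Fintype (FiniteField.Extension κ c n) := Fintype.ofFinite _
    exact ⟨FiniteField.Extension κ c n, inferInstance, inferInstance, inferInstance,
      FiniteField.finrank_extension κ c n⟩
  have hpoly : ∀ n, 1 ≤ n → ∃ g : ℚ[X], aeval μ g = ∑ a ∈ S, (mult a : E) * a ^ n := by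
    intro n hn
    obtain ⟨L, _, _, _, hL⟩ := hext n hn
    have h1 := hA L
    rw [hL] at h1
    refine ⟨Sm L ℚ[X] X, ?_⟩
    have h3 := hSm L ℚ[X] E ((aeval μ : ℚ[X] →ₐ[ℚ] E) : ℚ[X] →+* E) X
    rw [RingHom.coe_coe, aeval_X] at h3
    rw [h3, ← h1]
  have halg := alZ E μ hμalg S mult hS hpoly
  -- the residue field and the root of unity
  obtain ⟨k, _, R, res, _, _, hR⟩ := hTP c
  have hNk : (N : k) ≠ 0 := natCast_ne_zero_of_dvd hNf hf0
  have _ : Algebra (ZMod c) κ := ZMod.algebra κ c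
  have _ : Algebra (ZMod c) k := ZMod.algebra k c
  have hκk : Nonempty (κ →ₐ[ZMod c] k) := ⟨IsAlgClosed.lift⟩
  obtain ⟨eκ⟩ := hκk
  obtain ⟨Ω0, hΩ0⟩ : ∃ ζ : PadicAlgCl c, IsPrimitiveRoot ζ N := by
    have : NeZero ((N : ℕ) : PadicAlgCl c) := ⟨by exact_mod_cast (by omega : N ≠ 0)⟩
    exact HasEnoughRootsOfUnity.exists_primitiveRoot (PadicAlgCl c) N
  have hΩ0R : Ω0 ∈ R := (hR.1 Ω0).mpr (norm_pow_one (by omega) hΩ0.pow_eq_one).le
  have hres0 : IsPrimitiveRoot (res ⟨Ω0, hΩ0R⟩) N := by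
    have : NeZero ((N : ℕ) : k) := ⟨hNk⟩
    rw [← Polynomial.isRoot_cyclotomic_iff]
    have h1 : (Polynomial.cyclotomic N R).IsRoot ⟨Ω0, hΩ0R⟩ := by
      have h2 : (Polynomial.cyclotomic N (PadicAlgCl c)).IsRoot Ω0 :=
        hΩ0.isRoot_cyclotomic (by omega)
      rw [Polynomial.IsRoot.def] at h2 ⊢
      apply Subtype.ext
      have h3 := Polynomial.eval₂_hom R.subtype (p := Polynomial.cyclotomic N R) ⟨Ω0, hΩ0R⟩
      rw [← Polynomial.eval_map, Polynomial.map_cyclotomic] at h3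
      change R.subtype _ = R.subtype 0
      rw [← h3, map_zero]
      exact h2
    have h2 := h1.map (f := res)
    rwa [Polynomial.map_cyclotomic] at h2
  obtain ⟨i, hiN, hi⟩ : ∃ i < N, res ⟨Ω0, hΩ0R⟩ ^ i = eκ z := by
    have : NeZero N := ⟨by omega⟩
    exact hres0.eq_pow_of_pow_eq_one (by rw [← map_pow, hz.pow_eq_one, map_one])
  have hico : i.Coprime N := by
    have h1 : IsPrimitiveRoot (res ⟨Ω0, hΩ0R⟩ ^ i) N := by
      rw [hi]
      exact hz.map_of_injective eκ.injective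
    exact (hres0.pow_iff_coprime (by omega) i).mp h1
  set Ω := Ω0 ^ i with hΩdef
  have hΩ : IsPrimitiveRoot Ω N := hΩ0.pow_of_coprime i hico
  have hΩR : Ω ∈ R := R.pow_mem hΩ0R i
  have hΩz : res ⟨Ω, hΩR⟩ = eκ z := by
    rw [← hi, ← map_pow]
    rfl
  have hωj : IsPrimitiveRoot (Ω ^ j) N := hΩ.pow_of_coprime j hj
  obtain ⟨fe, hfe⟩ := hEM E (PadicAlgCl c) N μ (Ω ^ j) (by omega) hμ hωj
  have hμK : μ ∈ algebraicClosure ℚ E := (mem_algebraicClosure_iff).mpr hμalg
  set μK : algebraicClosure ℚ E := ⟨μ, hμK⟩ with hμKdef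
  have hfμ : fe μK = Ω ^ j := hfe μK rfl
  set g : E → PadicAlgCl c := fun x => if h : x ∈ algebraicClosure ℚ E then fe ⟨x, h⟩ else 0
    with hgdef
  have hmem : ∀ x ∈ S, x ∈ algebraicClosure ℚ E := fun x hx =>
    (mem_algebraicClosure_iff).mpr (halg x hx)
  have hg : ∀ (x : E) (hx : x ∈ algebraicClosure ℚ E), g x = fe ⟨x, hx⟩ := by
    intro x hx
    simp only [hgdef]
    rw [dif_pos hx]
  have hinj : Set.InjOn g (S : Set E) := by
    intro x hx y hy hxy
    rw [hg x (hmem x hx), hg y (hmem y hy)] at hxy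
    have := fe.injective hxy
    exact congrArg Subtype.val this
  set ρ := ‖((c : ℕ) : PadicAlgCl c)‖ with hρ
  have hρ0 : 0 < ρ := by
    rw [hρ, norm_pos_iff]
    exact_mod_cast (Fact.out : c.Prime).ne_zero
  have hρ1 : ρ < 1 := by
    have h1 : algebraMap ℚ_[c] (PadicAlgCl c) ((c : ℕ) : ℚ_[c]) = ((c : ℕ) : PadicAlgCl c) :=
      map_natCast _ _
    rw [hρ, ← h1, PadicAlgCl.norm_extends, Padic.norm_natCast_lt_one_iff]
  set ρN := ρ ^ ((K : ℝ)⁻¹) with hρN
  have hρN0 : 0 < ρN := Real.rpow_pos_of_pos hρ0 _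
  have hρN1 : ρN < 1 := Real.rpow_lt_one hρ0.le hρ1 (by positivity)
  have hρNN : ρN ^ K = ρ := by
    rw [hρN, ← Real.rpow_natCast, ← Real.rpow_mul hρ0.le, inv_mul_cancel₀ (by positivity),
      Real.rpow_one]
  -- the bound
  set Q0 := ‖((Fintype.card κ : ℕ) : PadicAlgCl c)‖ with hQ0
  have hQ0pos : 0 < Q0 := norm_card_pos (c := c) (L := κ)
  have hbound : ∀ n, 1 ≤ n → ‖∑ x ∈ S, (mult x : PadicAlgCl c) * g x ^ n‖ ≤ (Q0 ^ d * ρN) ^ n := by
    intro n hn
    obtain ⟨L, _, _, _, hL⟩ := hext n hn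
    have : CharP L c := charP_of_injective_algebraMap (algebraMap κ L).injective c
    have hcardL' : Fintype.card L = Fintype.card κ ^ n := by
      rw [← hL]
      exact Module.card_eq_pow_finrank
    have hcardL : Fintype.card L = c ^ (f * n) := by
      rw [pow_mul, ← hf, hcardL']
    -- the embedding of L
    obtain ⟨eL, heL⟩ : ∃ eL : L →+* k, ∀ y : κ, eL (algebraMap κ L y) = eκ y := by
      letI : Algebra κ k := (eκ : κ →+* k).toAlgebra
      have : Module.Finite κ L := .of_finite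
      exact ⟨((IsAlgClosed.lift : L →ₐ[κ] k) : L →+* k), fun y =>
        (IsAlgClosed.lift : L →ₐ[κ] k).commutes y⟩
    have h1 := hA L
    rw [hL] at h1
    have hest1 := hest k R res hR n (by omega) L hcardL eL Ω hΩ ⟨hΩR, by rw [hΩz, heL]⟩
    -- the equation in the field of algebraic numbers
    have h2 : ∑ x ∈ S.attach, ((mult x.1 : ℤ) : algebraicClosure ℚ E)
          * (⟨x.1, hmem x.1 x.2⟩ : algebraicClosure ℚ E) ^ n
        = Sm L (algebraicClosure ℚ E) μK := by
      apply (algebraMap (algebraicClosure ℚ E) E).injective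
      rw [hSm L _ E (algebraMap (algebraicClosure ℚ E) E), map_sum]
      have h3 : ∑ x ∈ S.attach, algebraMap (algebraicClosure ℚ E) E
          (((mult x.1 : ℤ) : algebraicClosure ℚ E)
          * (⟨x.1, hmem x.1 x.2⟩ : algebraicClosure ℚ E) ^ n)
          = ∑ x ∈ S, (mult x : E) * x ^ n := by
        rw [← sum_attach S]
        refine sum_congr rfl fun x _ => ?_
        rw [map_mul, map_pow, map_intCast]
        rfl
      rw [h3, h1]
      rfl
    have h4 := congrArg fe h2
    rw [hSm L _ _ fe, hfμ, map_sum] at h4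
    have h5 : ∑ x ∈ S.attach, fe (((mult x.1 : ℤ) : algebraicClosure ℚ E)
          * (⟨x.1, hmem x.1 x.2⟩ : algebraicClosure ℚ E) ^ n)
        = ∑ x ∈ S, (mult x : PadicAlgCl c) * g x ^ n := by
      rw [← sum_attach S]
      refine sum_congr rfl fun x _ => ?_
      rw [map_mul, map_pow, map_intCast, hg x.1 (hmem x.1 x.2)]
    rw [h5] at h4
    rw [← h4] at hest1
    have hcn : ‖((Fintype.card L : ℕ) : PadicAlgCl c)‖ = Q0 ^ n := by
      rw [hcardL', hQ0]
      push_cast
      rw [norm_pow]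
    rw [hcn] at hest1
    have h8 : ‖∑ x ∈ S, (mult x : PadicAlgCl c) * g x ^ n‖ ^ K ≤ ((Q0 ^ d * ρN) ^ n) ^ K := by
      refine hest1.trans (le_of_eq ?_)
      rw [← hρNN, mul_pow, mul_pow]
      congr 1
      · rw [← pow_mul, ← pow_mul, ← pow_mul]
        congr 1
        ring
      · rw [← pow_mul, ← pow_mul, mul_comm]
    exact le_of_pow_le_pow_left₀ (by omega) (by positivity) h8
  -- apply the boundedness lemma
  have hone : ∀ x ∈ S, (S.filter fun x' => g x' = g x) = {x} := by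
    intro x hx
    ext x'
    rw [mem_filter, mem_singleton]
    constructor
    · rintro ⟨h3, h4⟩
      exact hinj h3 hx h4
    · rintro rfl
      exact ⟨hx, rfl⟩
  have hfin := bdZ (PadicAlgCl c) (S.image g) (fun y => ∑ x ∈ S with g x = y, mult x)
    (Q0 ^ d * ρN) (by positivity) (by
      intro y hy
      obtain ⟨x, hx, rfl⟩ := mem_image.mp hy
      refine ⟨?_, ?_⟩
      · rw [hg x (hmem x hx)]
        intro h
        have h1 : (⟨x, hmem x hx⟩ : algebraicClosure ℚ E) = 0 := by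
          apply fe.injective
          rw [h, map_zero]
        exact (hS x hx).1 (congrArg Subtype.val h1)
      · rw [hone x hx, sum_singleton]
        exact (hS x hx).2) (by
      intro n hn
      have h1 : ∑ y ∈ S.image g, ((∑ x ∈ S with g x = y, mult x : ℤ) : PadicAlgCl c) * y ^ n
          = ∑ x ∈ S, (mult x : PadicAlgCl c) * g x ^ n := by
        rw [sum_image hinj]
        refine sum_congr rfl fun x hx => ?_
        rw [hone x hx, sum_singleton]
      rw [h1]
      exact hbound n hn) (g e) (mem_image_of_mem g heS)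
  have hge : g e ^ m = (((Fintype.card κ : ℕ) : PadicAlgCl c) ^ d) ^ m := by
    rw [hg e (hmem e heS), ← map_pow]
    have : (⟨e, hmem e heS⟩ : algebraicClosure ℚ E) ^ m
        = (((Fintype.card κ : ℕ) : algebraicClosure ℚ E) ^ d) ^ m := by
      apply Subtype.ext
      push_cast
      exact hem
    rw [this, map_pow, map_pow, map_natCast]
  have hge1 : ‖g e‖ = Q0 ^ d := by
    have h1 := congrArg norm hge
    rw [norm_pow, norm_pow, norm_pow] at h1
    exact (pow_left_inj₀ (norm_nonneg _) (pow_nonneg hQ0pos.le _) (by omega)).mp h1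
  rw [hge1] at hfin
  have h9 : Q0 ^ d * ρN < Q0 ^ d := by
    have := mul_lt_mul_of_pos_left hρN1 (pow_pos hQ0pos d)
    rwa [mul_one] at this
  exact absurd hfin (not_le.mpr h9)


/-- traces of powers in terms of the nonzero eigenvalues -/
theorem te (E : Type) [Field E] [IsAlgClosed E] (V : Type) [AddCommGroup V] [Module E V]
    [FiniteDimensional E V] (φ : Module.End E V) :
    ∃ (S : Finset E) (m : E → ℕ), (∀ a ∈ S, a ≠ 0 ∧ 0 < m a) ∧
      (∀ a, a ≠ 0 → Module.End.HasEigenvalue φ a → a ∈ S) ∧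
      (∀ a ∈ S, Module.End.HasEigenvalue φ a) ∧
      ∀ n, 1 ≤ n → LinearMap.trace E V (φ ^ n) = ∑ a ∈ S, (m a : E) * a ^ n := by
  classical
  have hind := φ.independent_maxGenEigenspace
  have hfin : {a | φ.maxGenEigenspace a ≠ ⊥}.Finite :=
    WellFoundedGT.finite_ne_bot_of_iSupIndep hind
  have hint := DirectSum.isInternal_submodule_of_iSupIndep_of_iSup_eq_top hind
    (Module.End.iSup_maxGenEigenspace_eq_top φ)
  refine ⟨hfin.toFinset.filter (fun a => a ≠ 0),
    fun a => Module.finrank E (φ.maxGenEigenspace a), ?_, ?_, ?_, ?_⟩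
  · intro a ha
    rw [mem_filter, Set.Finite.mem_toFinset] at ha
    exact ⟨ha.2, Module.finrank_pos_iff.2 (Submodule.nontrivial_iff_ne_bot.2 ha.1)⟩
  · intro a ha hev
    rw [mem_filter, Set.Finite.mem_toFinset]
    refine ⟨fun h0 => ?_, ha⟩
    apply hev
    rw [eq_bot_iff, ← h0]
    exact Module.End.eigenspace_le_maxGenEigenspace
  · intro a ha
    rw [mem_filter, Set.Finite.mem_toFinset] at ha
    exact Module.End.HasUnifEigenvalue.lt (k := ⊤) zero_lt_one ha.1
  · intro n hn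
    have hcomm : ∀ a, Set.MapsTo (φ ^ n) (φ.maxGenEigenspace a) (φ.maxGenEigenspace a) :=
      fun a => φ.mapsTo_maxGenEigenspace_of_comm (Commute.pow_right (Commute.refl φ) n) a
    rw [LinearMap.trace_eq_sum_trace_restrict' hint hfin hcomm]
    have hterm : ∀ a, LinearMap.trace E (φ.maxGenEigenspace a) ((φ ^ n).restrict (hcomm a))
        = (Module.finrank E (φ.maxGenEigenspace a) : E) * a ^ n := by
      intro a
      have hm := φ.mapsTo_maxGenEigenspace_of_comm (Commute.refl φ) a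
      have h5 := Pool.Agent.W800.HA.TE.nil (φ.restrict hm) a
        (φ.isNilpotent_restrict_maxGenEigenspace_sub_algebraMap a) n
      rw [← h5]
      exact congrArg _ (Module.End.pow_restrict n hm (hcomm a)).symm
    rw [Finset.sum_congr rfl (fun a _ => hterm a)]
    symm
    rw [Finset.sum_filter]
    apply Finset.sum_congr rfl
    intro a _
    split_ifs with h
    · rfl
    · rw [not_not.1 h, zero_pow (by omega), mul_zero]

/-- Two operators with the difference of traces given by sums with a p-adic bound: if the second one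
has no eigenvalue `|κ|` times a root of unity, then the first one has none either. -/
theorem vir_op {c : ℕ} [Fact c.Prime] {N : ℕ} (hN : 2 ≤ N)
    (κ : Type) [Field κ] [Fintype κ] [CharP κ c] {F : ℕ} (hF : Fintype.card κ = c ^ F)
    (K : ℕ) (hK : 0 < K) {j : ℕ} (hj : j.Coprime N)
    {z : κ} (hz : IsPrimitiveRoot z N) {E : Type} [Field E] [CharZero E] [IsAlgClosed E]
    {μ : E} (hμ : IsPrimitiveRoot μ N)
    (Sm : ∀ (L : Type) [Field L] [Fintype L] [Algebra κ L] (R : Type) [CommRing R], R → R)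
    (hSm : ∀ (L : Type) [Field L] [Fintype L] [Algebra κ L] (R R' : Type) [CommRing R]
      [CommRing R'] (g : R →+* R') (x : R), g (Sm L R x) = Sm L R' (g x))
    (hest : ∀ (k : Type) [Field k] [CharP k c] (R : Subring (PadicAlgCl c)) (res : R →+* k),
      IsRes c R res → ∀ (n : ℕ), 0 < n → ∀ (L : Type) [Field L] [Fintype L] [Algebra κ L]
      [CharP L c], Fintype.card L = c ^ (F * n) → ∀ (e : L →+* k) (Ω : PadicAlgCl c),
      IsPrimitiveRoot Ω N → (∃ h : Ω ∈ R, res ⟨Ω, h⟩ = e (algebraMap κ L z)) →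
      ‖Sm L (PadicAlgCl c) (Ω ^ j)‖ ^ K
        ≤ ‖((Fintype.card L : ℕ) : PadicAlgCl c)‖ ^ (1 * K) * ‖((c : ℕ) : PadicAlgCl c)‖ ^ n)
    {V V' : Type} [AddCommGroup V] [Module E V] [FiniteDimensional E V]
    [AddCommGroup V'] [Module E V'] [FiniteDimensional E V']
    (Φ : Module.End E V) (Φ' : Module.End E V')
    (hΦ : ∀ (L : Type) [Field L] [Fintype L] [Algebra κ L],
      LinearMap.trace E V (Φ ^ Module.finrank κ L) - LinearMap.trace E V' (Φ' ^ Module.finrank κ L)
        = Sm L E μ)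
    (h' : ∀ M : ℕ, 0 < M → ∀ v : V', (Φ' ^ M) v = (Fintype.card κ : E) ^ M • v → v = 0)
    (M : ℕ) (hM : 0 < M) (v : V) (hv : (Φ ^ M) v = (Fintype.card κ : E) ^ M • v) : v = 0 := by
  classical
  by_contra hv0
  have hq : (Fintype.card κ : E) ≠ 0 := by exact_mod_cast Fintype.card_ne_zero
  obtain ⟨e', he', hem⟩ : ∃ e' : E, Module.End.HasEigenvalue Φ e' ∧
      e' ^ M = (Fintype.card κ : E) ^ M := by
    have h1 : Module.End.HasEigenvalue (Φ ^ M) ((Fintype.card κ : E) ^ M) :=
      Module.End.hasEigenvalue_of_hasEigenvector (x := v)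
        ⟨by rw [Module.End.mem_eigenspace_iff, hv], hv0⟩
    have h2 : (Fintype.card κ : E) ^ M ∈ spectrum E (Φ ^ M) :=
      Module.End.hasEigenvalue_iff_mem_spectrum.mp h1
    rw [spectrum.map_pow_of_pos Φ hM] at h2
    obtain ⟨e', he', hem⟩ := h2
    exact ⟨e', Module.End.hasEigenvalue_iff_mem_spectrum.mpr he', hem⟩
  have he0' : e' ≠ 0 := by
    rintro rfl
    rw [zero_pow (by omega)] at hem
    exact pow_ne_zero M hq hem.symm
  obtain ⟨S, mult, hS, hSe, -, htr⟩ := te E V Φ
  obtain ⟨S', mult', hS', -, hSe', htr'⟩ := te E V' Φ'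
  have hnot : e' ∉ S' := by
    intro hcon
    obtain ⟨x, hx⟩ := (hSe' e' hcon).exists_hasEigenvector
    have h3 : (Φ' ^ M) x = e' ^ M • x := by
      have : ∀ k : ℕ, (Φ' ^ k) x = e' ^ k • x := by
        intro k
        induction k with
        | zero => simp
        | succ k ih =>
          rw [pow_succ, Module.End.mul_apply, Module.End.mem_eigenspace_iff.mp hx.1, map_smul, ih,
            smul_smul, pow_succ, mul_comm]
      exact this M
    rw [hem] at h3
    exact hx.2 (h' M hM x h3)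
  set mm : E → ℤ := fun a => (if a ∈ S then (mult a : ℤ) else 0)
    - (if a ∈ S' then (mult' a : ℤ) else 0) with hmm
  have hsum : ∀ n, ∑ a ∈ (S ∪ S').filter (fun a => mm a ≠ 0), (mm a : E) * a ^ n
      = ∑ a ∈ S, (mult a : E) * a ^ n - ∑ a ∈ S', (mult' a : E) * a ^ n := by
    intro n
    have e1 : ∑ a ∈ (S ∪ S').filter (fun a => mm a ≠ 0), (mm a : E) * a ^ n
        = ∑ a ∈ S ∪ S', (mm a : E) * a ^ n := by
      rw [sum_filter]
      refine sum_congr rfl fun a _ => ?_
      split_ifs with h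
      · rfl
      · rw [not_not.mp h]
        simp
    have e2 : ∀ a, (mm a : E) * a ^ n = (if a ∈ S then (mult a : E) * a ^ n else 0)
        - (if a ∈ S' then (mult' a : E) * a ^ n else 0) := by
      intro a
      rw [hmm]
      push_cast
      rw [sub_mul, ite_mul, ite_mul, zero_mul]
    rw [e1, sum_congr rfl fun a _ => e2 a, sum_sub_distrib, sum_ite_mem, sum_ite_mem,
      union_inter_cancel_left, union_inter_cancel_right]
  refine coreZ hN κ hF 1 K hK hj hz hμ Sm hSm hest ((S ∪ S').filter fun a => mm a ≠ 0) mm ?_ ?_ e'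
    ?_ M hM ?_
  · intro a ha
    rw [mem_filter, mem_union] at ha
    refine ⟨?_, ha.2⟩
    rcases ha.1 with h | h
    · exact (hS a h).1
    · exact (hS' a h).1
  · intro L _ _ _
    have hL : 1 ≤ Module.finrank κ L := by
      have : Module.Finite κ L := .of_finite
      exact Module.finrank_pos
    rw [hsum, ← htr _ hL, ← htr' _ hL, hΦ L]
  · have h3 := hSe e' he0' he'
    rw [mem_filter, mem_union]
    refine ⟨Or.inl h3, ?_⟩
    rw [hmm]
    simp only []
    rw [if_pos h3, if_neg hnot, sub_zero]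
    exact_mod_cast (hS e' h3).2.ne'
  · rw [hem, pow_one]

end Pool.Agent.K9h16.VT
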